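import Mathlib

namespace Pool.Agent.H284_lmn

open Finset

lemma geom_root {q : ℕ} (x : ℂ) (hx : x ^ q = 1) :
    ∑ i ∈ range q, x ^ i = if x = 1 then (q : ℂ) else 0 := by
  by_cases h : x = 1
  · rw [if_pos h, h]; simp
  · rw [if_neg h, geom_sum_eq h, hx]; simp

/-- Inverse discrete Fourier transform along the residue classes modulo `q`. -/
lemma dft {q : ℕ} (hq : 0 < q) {η : ℂ} (hη : IsPrimitiveRoot η q) (S : Finset ℕ) (e : ℕ → ℕ)
    (w : ℕ → ℂ) (t : ℕ) :
    ∑ i ∈ range q, ((η ^ t)⁻¹) ^ i * ∑ j ∈ S, w j * (η ^ (e j)) ^ i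
      = q * ∑ j ∈ S with e j % q = t % q, w j := by
  have hη0 : η ≠ 0 := hη.ne_zero hq.ne'
  simp only [mul_sum]
  rw [sum_comm]
  rw [sum_filter]
  apply sum_congr rfl
  intro j _
  have h1 : ∀ i, ((η ^ t)⁻¹) ^ i * (w j * (η ^ (e j)) ^ i) = w j * ((η ^ t)⁻¹ * η ^ (e j)) ^ i := by
    intro i
    rw [mul_pow]; ring
  simp only [h1]
  rw [← mul_sum, geom_root]
  · have h2 : ((η ^ t)⁻¹ * η ^ (e j) = 1) ↔ e j % q = t % q := by
      rw [inv_mul_eq_one₀ (pow_ne_zero _ hη0)]
      rw [pow_eq_pow_mod t hη.pow_eq_one, pow_eq_pow_mod (e j) hη.pow_eq_one]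
      constructor
      · intro h
        exact (hη.pow_inj (Nat.mod_lt _ hq) (Nat.mod_lt _ hq) h).symm
      · intro h
        rw [h]
    by_cases h3 : e j % q = t % q
    · rw [if_pos (h2.mpr h3), if_pos h3]; ring
    · rw [if_neg (fun h => h3 (h2.mp h)), if_neg h3]; ring
  · rw [mul_pow, inv_pow, ← pow_mul, ← pow_mul, mul_comm t q, mul_comm (e j) q, pow_mul, pow_mul,
      hη.pow_eq_one]
    simp

/-- The residue class `t` modulo `q` of an indexed family. -/
def cls (S : Finset ℕ) (e : ℕ → ℕ) (q t : ℕ) : Finset ℕ := {j ∈ S | e j % q = t}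

lemma mem_cls {S : Finset ℕ} {e : ℕ → ℕ} {q t j : ℕ} : j ∈ cls S e q t ↔ j ∈ S ∧ e j % q = t := by
  unfold cls; rw [mem_filter]

lemma card_cls (S : Finset ℕ) (e : ℕ → ℕ) {q : ℕ} (hq : 0 < q) :
    S.card = ∑ t ∈ range q, (cls S e q t).card := by
  unfold cls
  exact card_eq_sum_card_fiberwise (fun j _ => by
    simp only [coe_range, Set.mem_Iio]; exact Nat.mod_lt _ hq)

lemma combine {S : Finset ℕ} {e : ℕ → ℕ} {q P : ℕ} (hq : 0 < q) (hS : S.Nonempty)
    (h : ∀ t < q, (cls S e q t).Nonempty →
      P ≤ (cls S e q t).card ∧ ((cls S e q t).card < 2 * P → Odd (cls S e q t).card)) :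
    P ≤ S.card ∧ (S.card < 2 * P → Odd S.card) := by
  obtain ⟨j, hj⟩ := hS
  have hjt : j ∈ cls S e q (e j % q) := mem_cls.mpr ⟨hj, rfl⟩
  have htq : e j % q < q := Nat.mod_lt _ hq
  obtain ⟨h1, h2⟩ := h _ htq ⟨j, hjt⟩
  have hsum := card_cls S e hq
  rw [← add_sum_erase _ _ (mem_range.mpr htq)] at hsum
  refine ⟨by omega, ?_⟩
  intro hlt
  have h3 : ∑ t ∈ (range q).erase (e j % q), (cls S e q t).card = 0 := by
    apply sum_eq_zero
    intro t ht
    rw [card_eq_zero]
    by_contra hne
    rw [mem_erase, mem_range] at ht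
    obtain ⟨h4, _⟩ := h t ht.2 (nonempty_iff_ne_empty.mpr hne)
    have h5 : (cls S e q t).card ≤ ∑ t ∈ (range q).erase (e j % q), (cls S e q t).card :=
      single_le_sum (f := fun t => (cls S e q t).card) (fun _ _ => Nat.zero_le _)
        (mem_erase.mpr ⟨ht.1, mem_range.mpr ht.2⟩)
    omega
  rw [h3, add_zero] at hsum
  rw [hsum]
  apply h2
  omega

lemma prim_shift {q n' : ℕ} {ζ : ℂ} (hζ : IsPrimitiveRoot ζ (q * n')) (hdvd : q ∣ n')
    (i : ℕ) : IsPrimitiveRoot (ζ * (ζ ^ n') ^ i) (q * n') := by
  have : ζ * (ζ ^ n') ^ i = ζ ^ (1 + n' * i) := by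
    rw [pow_add, pow_one, pow_mul]
  rw [this]
  apply hζ.pow_of_coprime
  apply Nat.Coprime.mul_right
  · obtain ⟨k, rfl⟩ := hdvd
    rw [show 1 + q * k * i = 1 + q * (k * i) by ring]
    simp
  · simp

lemma prim_lift {q n' : ℕ} (hq : q.Prime) (hn' : 0 < n') {ζ : ℂ} (hdvd : q ∣ n')
    (h : IsPrimitiveRoot (ζ ^ q) n') : IsPrimitiveRoot ζ (q * n') := by
  have h1 : orderOf (ζ ^ q) = n' := h.eq_orderOf.symm
  have hfin : IsOfFinOrder ζ := by
    rw [isOfFinOrder_iff_pow_eq_one]
    exact ⟨q * n', Nat.mul_pos hq.pos hn', by rw [pow_mul, h.pow_eq_one]⟩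
  have h2 : orderOf (ζ ^ q) = orderOf ζ / (orderOf ζ).gcd q := orderOf_pow' ζ hq.ne_zero
  rw [h1] at h2
  rw [IsPrimitiveRoot.iff_orderOf]
  have h3 : q ∣ orderOf ζ := by
    by_contra hcon
    have : (orderOf ζ).gcd q = 1 := by
      rw [Nat.gcd_comm]
      exact (hq.coprime_iff_not_dvd.mpr hcon)
    rw [this, Nat.div_one] at h2
    exact hcon (h2 ▸ hdvd)
  rw [Nat.gcd_eq_right h3] at h2
  rw [h2]
  exact (Nat.mul_div_cancel' h3).symm

lemma prim_mul {q n' : ℕ} {η ξ : ℂ} (hη : IsPrimitiveRoot η q) (hξ : IsPrimitiveRoot ξ n')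
    (hco : q.Coprime n') : IsPrimitiveRoot (η * ξ) (q * n') := by
  rw [IsPrimitiveRoot.iff_orderOf]
  rw [(Commute.all η ξ).orderOf_mul_eq_mul_orderOf_of_coprime, ← hη.eq_orderOf, ← hξ.eq_orderOf]
  rw [← hη.eq_orderOf, ← hξ.eq_orderOf]
  exact hco

/-- A vanishing relation among `n`-th roots of unity, `n` odd, that holds at all primitive
`n`-th roots, has at least `P` terms if all prime factors of `n` are at least `P`, and an odd
number of terms if it has fewer than `2P`. -/
theorem lam_leung (n : ℕ) : Odd n → ∀ P : ℕ, (∀ q : ℕ, q.Prime → q ∣ n → P ≤ q) →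
    ∀ (S : Finset ℕ) (e : ℕ → ℕ) (c : ℕ → ℂ), S.Nonempty → (∀ j ∈ S, c j ≠ 0) →
    (∀ i ∈ S, ∀ j ∈ S, e i % n = e j % n → i = j) →
    (∀ ζ : ℂ, IsPrimitiveRoot ζ n → ∑ j ∈ S, c j * ζ ^ (e j) = 0) →
    P ≤ S.card ∧ (S.card < 2 * P → Odd S.card) := by
  induction n using Nat.strong_induction_on with
  | _ n IH =>
  intro hn P hP S e c hS hc hinj hrel
  have hn0 : 0 < n := hn.pos
  by_cases hn1 : n = 1
  · exfalso
    subst hn1
    obtain ⟨j, hj⟩ := hS
    have hSj : S = {j} := by
      apply eq_singleton_iff_unique_mem.mpr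
      refine ⟨hj, fun i hi => hinj i hi j hj (by simp [Nat.mod_one])⟩
    have := hrel 1 IsPrimitiveRoot.one
    rw [hSj] at this
    simp at this
    exact hc j hj this
  -- the smallest prime factor
  set q := n.minFac with hqdef
  have hq : q.Prime := Nat.minFac_prime hn1
  have hqpos : 0 < q := hq.pos
  obtain ⟨n', hn'⟩ := Nat.minFac_dvd n
  rw [← hqdef] at hn'
  have hn'0 : 0 < n' := Nat.pos_of_ne_zero (by rintro rfl; omega)
  have hn'lt : n' < n := by
    rw [hn']
    have := hq.two_le
    nlinarith
  have hn'odd : Odd n' := by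
    rw [hn'] at hn
    exact (Nat.odd_mul.mp hn).2
  have hqodd : Odd q := by
    rw [hn'] at hn
    exact (Nat.odd_mul.mp hn).1
  have hPq : P ≤ q := hP q hq (Nat.minFac_dvd n)
  have hn'dvd : n' ∣ n := ⟨q, by rw [hn']; ring⟩
  by_cases hdvd : q ∣ n'
  · -- square case
    apply combine (e := e) hqpos hS
    intro t ht hne
    apply IH n' hn'lt hn'odd P (fun r hr hrd => hP r hr (hrd.trans hn'dvd))
      (cls S e q t) (fun j => e j / q) c hne (fun j hj => hc j (mem_cls.mp hj).1)
    · intro i hi j hj hij
      rw [mem_cls] at hi hj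
      apply hinj i hi.1 j hj.1
      rw [hn', Nat.mod_mul, Nat.mod_mul, hi.2, hj.2, hij]
    · intro ξ hξ
      obtain ⟨ζ, hζ⟩ := IsAlgClosed.exists_pow_nat_eq ξ hqpos
      have hζp : IsPrimitiveRoot ζ (q * n') := prim_lift hq hn'0 hdvd (hζ ▸ hξ)
      have hη : IsPrimitiveRoot (ζ ^ n') q :=
        hζp.pow (Nat.mul_pos hqpos hn'0) (by ring)
      have h1 := dft hqpos hη S e (fun j => c j * ζ ^ (e j)) t
      have h2 : ∀ i, ∑ j ∈ S, c j * ζ ^ (e j) * ((ζ ^ n') ^ (e j)) ^ i = 0 := by
        intro i
        have := hrel (ζ * (ζ ^ n') ^ i) (by rw [hn']; exact prim_shift hζp hdvd i)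
        rw [← this]
        apply sum_congr rfl
        intro j _
        rw [mul_pow, ← pow_mul _ i (e j), ← pow_mul _ (e j) i, mul_comm i (e j)]
        ring
      simp only [h2, mul_zero, sum_const_zero] at h1
      have h3 : ∑ j ∈ S with e j % q = t % q, c j * ζ ^ (e j) = 0 := by
        have hq0 : (q : ℂ) ≠ 0 := by exact_mod_cast hqpos.ne'
        exact (mul_eq_zero.mp h1.symm).resolve_left hq0
      rw [Nat.mod_eq_of_lt ht] at h3
      have h4 : ∑ j ∈ cls S e q t, c j * ζ ^ (e j) = ζ ^ t * ∑ j ∈ cls S e q t, c j * ξ ^ (e j / q) := by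
        rw [mul_sum]
        apply sum_congr rfl
        intro j hj
        rw [mem_cls] at hj
        rw [← hζ, ← pow_mul]
        have : ζ ^ (e j) = ζ ^ (t + q * (e j / q)) := by
          congr 1
          rw [← hj.2]
          exact (Nat.mod_add_div _ _).symm
        rw [this, pow_add]
        ring
      have h5 : ζ ^ t * ∑ j ∈ cls S e q t, c j * ξ ^ (e j / q) = 0 := by
        rw [← h4]; exact h3
      have hζ0 : ζ ≠ 0 := hζp.ne_zero (Nat.mul_pos hqpos hn'0).ne'
      exact (mul_eq_zero.mp h5).resolve_left (pow_ne_zero _ hζ0)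
  · -- coprime case
    have hco : q.Coprime n' := hq.coprime_iff_not_dvd.mpr hdvd
    obtain ⟨η, hη⟩ : ∃ η : ℂ, IsPrimitiveRoot η q :=
      ⟨_, Complex.isPrimitiveRoot_exp q hqpos.ne'⟩
    have hq0 : (q : ℂ) ≠ 0 := by exact_mod_cast hqpos.ne'
    have hclass : ∀ ξ : ℂ, IsPrimitiveRoot ξ n' → ∀ t < q,
        q * ∑ j ∈ cls S e q t, c j * ξ ^ (e j) = ∑ j ∈ S, c j * ξ ^ (e j) := by
      intro ξ hξ t ht
      have h1 := dft hqpos hη S e (fun j => c j * ξ ^ (e j)) t
      rw [Nat.mod_eq_of_lt ht] at h1
      unfold cls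
      rw [← h1, ← Finset.add_sum_erase _ _ (mem_range.mpr hqpos)]
      have h2 : ∑ x ∈ (range q).erase 0, ((η ^ t)⁻¹) ^ x *
          ∑ j ∈ S, c j * ξ ^ (e j) * (η ^ (e j)) ^ x = 0 := by
        apply sum_eq_zero
        intro i hi
        rw [mem_erase, mem_range] at hi
        have hηi : IsPrimitiveRoot (η ^ i) q := by
          apply hη.pow_of_coprime
          rw [Nat.coprime_comm]
          exact hq.coprime_iff_not_dvd.mpr (fun hd =>
            absurd (Nat.le_of_dvd (Nat.pos_of_ne_zero hi.1) hd) (by omega))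
        have := hrel (η ^ i * ξ) (by rw [hn']; exact prim_mul hηi hξ hco)
        have h3 : ∑ j ∈ S, c j * ξ ^ (e j) * (η ^ (e j)) ^ i = 0 := by
          rw [← this]
          apply sum_congr rfl
          intro j _
          rw [mul_pow, ← pow_mul _ i (e j), ← pow_mul _ (e j) i, mul_comm i (e j)]
          ring
        rw [h3, mul_zero]
      rw [h2]
      simp
    have hinj' : ∀ t, ∀ i ∈ cls S e q t, ∀ j ∈ cls S e q t, e i % n' = e j % n' → i = j := by
      intro t i hi j hj hij
      rw [mem_cls] at hi hj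
      apply hinj i hi.1 j hj.1
      rw [hn']
      exact (Nat.modEq_and_modEq_iff_modEq_mul hco).mp ⟨hi.2.trans hj.2.symm, hij⟩
    by_cases hT : ∀ ξ : ℂ, IsPrimitiveRoot ξ n' → ∑ j ∈ S, c j * ξ ^ (e j) = 0
    · apply combine (e := e) hqpos hS
      intro t ht hne
      apply IH n' hn'lt hn'odd P (fun r hr hrd => hP r hr (hrd.trans hn'dvd))
        (cls S e q t) e c hne (fun j hj => hc j (mem_cls.mp hj).1) (hinj' t)
      intro ξ hξ
      have h1 := hclass ξ hξ t ht
      rw [hT ξ hξ] at h1
      exact (mul_eq_zero.mp h1).resolve_left hq0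
    · push Not at hT
      obtain ⟨ξ0, hξ0, hT0⟩ := hT
      have hne : ∀ t ∈ range q, 1 ≤ (cls S e q t).card := by
        intro t ht
        by_contra hcon
        have h0 : cls S e q t = ∅ := by
          rw [← card_eq_zero]; omega
        have h1 := hclass ξ0 hξ0 t (mem_range.mp ht)
        rw [h0] at h1
        simp only [sum_empty, mul_zero] at h1
        exact hT0 h1.symm
      have hcard := card_cls S e hqpos
      have hge : q ≤ S.card := by
        rw [hcard]
        calc q = ∑ t ∈ range q, 1 := by simp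
          _ ≤ _ := sum_le_sum hne
      refine ⟨by omega, fun hlt => ?_⟩
      -- some class has exactly one element
      obtain ⟨t1, ht1, hc1⟩ : ∃ t1 ∈ range q, (cls S e q t1).card = 1 := by
        by_contra hcon
        push Not at hcon
        have : 2 * q ≤ S.card := by
          rw [hcard]
          calc 2 * q = ∑ t ∈ range q, 2 := by simp [mul_comm]
            _ ≤ _ := sum_le_sum (fun t ht => by
              have := hne t ht
              have := hcon t ht
              omega)
        omega
      obtain ⟨j1, hj1⟩ := card_eq_one.mp hc1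
      have hj1mem : j1 ∈ cls S e q t1 := by rw [hj1]; exact mem_singleton_self _
      have hj1' := mem_cls.mp hj1mem
      have hall : ∀ t2 ∈ range q, (cls S e q t2).card = 1 := by
        intro t2 ht2
        by_contra hcon
        have hge2 : 2 ≤ (cls S e q t2).card := by
          have := hne t2 ht2
          omega
        have ht12 : t1 ≠ t2 := by
          rintro rfl
          omega
        have hprimes : ∀ r : ℕ, r.Prime → r ∣ n' → q + 2 ≤ r := by
          intro r hr hrd
          have h1 : q ≤ r := Nat.minFac_le_of_dvd hr.two_le (hrd.trans hn'dvd)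
          have h2 : q ≠ r := by
            rintro h
            exact hdvd (h ▸ hrd)
          have h3 : Odd r := hn'odd.of_dvd_nat hrd
          have h4 : r ≠ q + 1 := by
            rintro rfl
            exact (Nat.not_odd_iff_even.mpr hqodd.add_one) h3
          omega
        have hrel2 : ∀ ξ : ℂ, IsPrimitiveRoot ξ n' →
            ∑ j ∈ cls S e q t2, c j * ξ ^ (e j) = c j1 * ξ ^ (e j1) := by
          intro ξ hξ
          have h1 := hclass ξ hξ t1 (mem_range.mp ht1)
          have h2 := hclass ξ hξ t2 (mem_range.mp ht2)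
          rw [hj1, sum_singleton] at h1
          rw [← h1] at h2
          exact mul_left_cancel₀ hq0 h2
        have hbig : q + 1 ≤ (cls S e q t2).card := by
          by_cases hex : ∃ j2 ∈ cls S e q t2, e j2 % n' = e j1 % n'
          · obtain ⟨j2, hj2, hj2e⟩ := hex
            set c' : ℕ → ℂ := fun j => if j = j2 then c j2 - c j1 else c j with hc'
            obtain ⟨j3, hj3, hj32⟩ : ∃ j3 ∈ cls S e q t2, j3 ≠ j2 :=
              exists_mem_ne (by omega) j2
            have h1 := IH n' hn'lt hn'odd (q + 2) hprimes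
              ({j ∈ cls S e q t2 | c' j ≠ 0}) e c' ⟨j3, by
                rw [mem_filter]
                refine ⟨hj3, ?_⟩
                simp only [hc', if_neg hj32]
                exact hc j3 (mem_cls.mp hj3).1⟩ (fun j hj => (mem_filter.mp hj).2)
              (fun i hi j hj hij => hinj' t2 i (mem_filter.mp hi).1 j (mem_filter.mp hj).1 hij)
              (fun ξ hξ => by
                rw [sum_filter_of_ne (p := fun j => c' j ≠ 0)
                  (fun j _ hj h0 => hj (by rw [h0, zero_mul]))]
                have h2 : ∑ j ∈ cls S e q t2, c' j * ξ ^ (e j)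
                    = ∑ j ∈ cls S e q t2, c j * ξ ^ (e j) - c j1 * ξ ^ (e j2) := by
                  rw [← add_sum_erase _ _ hj2, ← add_sum_erase _ (fun j => c j * ξ ^ (e j)) hj2]
                  have h3 : ∑ x ∈ (cls S e q t2).erase j2, c' x * ξ ^ (e x)
                      = ∑ x ∈ (cls S e q t2).erase j2, c x * ξ ^ (e x) := by
                    apply sum_congr rfl
                    intro x hx
                    rw [mem_erase] at hx
                    simp only [hc', if_neg hx.1]
                  rw [h3]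
                  simp only [hc', if_true]
                  ring
                rw [h2, hrel2 ξ hξ]
                have h3 : ξ ^ (e j2) = ξ ^ (e j1) := by
                  rw [pow_eq_pow_mod (e j2) hξ.pow_eq_one, pow_eq_pow_mod (e j1) hξ.pow_eq_one,
                    hj2e]
                rw [h3, sub_self])
            have h4 := card_filter_le (cls S e q t2) (fun j => c' j ≠ 0)
            omega
          · push Not at hex
            have hj1n : j1 ∉ cls S e q t2 := by
              intro h
              exact ht12 (hj1'.2.symm.trans (mem_cls.mp h).2)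
            set c' : ℕ → ℂ := fun j => if j = j1 then - c j1 else c j with hc'
            have h1 := IH n' hn'lt hn'odd (q + 2) hprimes
              (insert j1 (cls S e q t2)) e c' ⟨j1, mem_insert_self _ _⟩ (fun j hj => by
                rw [mem_insert] at hj
                by_cases hjj : j = j1
                · simp only [hc', if_pos hjj]
                  exact neg_ne_zero.mpr (hc j1 hj1'.1)
                · simp only [hc', if_neg hjj]
                  exact hc j (mem_cls.mp (hj.resolve_left hjj)).1)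
              (fun i hi j hj hij => by
                rw [mem_insert] at hi hj
                rcases hi with rfl | hi
                · rcases hj with rfl | hj
                  · rfl
                  · exact absurd hij.symm (hex j hj)
                · rcases hj with rfl | hj
                  · exact absurd hij (hex i hi)
                  · exact hinj' t2 i hi j hj hij)
              (fun ξ hξ => by
                rw [sum_insert hj1n]
                have h3 : ∑ x ∈ cls S e q t2, c' x * ξ ^ (e x)
                    = ∑ x ∈ cls S e q t2, c x * ξ ^ (e x) := by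
                  apply sum_congr rfl
                  intro x hx
                  have : x ≠ j1 := by rintro rfl; exact hj1n hx
                  simp only [hc', if_neg this]
                rw [h3, hrel2 ξ hξ]
                simp only [hc', if_true]
                ring)
            rw [card_insert_of_notMem hj1n] at h1
            omega
        rw [← add_sum_erase _ _ ht2] at hcard
        have h6 : q - 1 ≤ ∑ t ∈ (range q).erase t2, (cls S e q t).card := by
          calc q - 1 = ∑ t ∈ (range q).erase t2, 1 := by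
                rw [sum_const, card_erase_of_mem ht2, card_range]; simp
            _ ≤ _ := sum_le_sum (fun t ht => hne t (mem_of_mem_erase ht))
        omega
      rw [sum_congr rfl hall] at hcard
      rw [hcard]
      simpa using hqodd

end Pool.Agent.H284_lmn
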