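import Mathlib
import Pool.Agent.H284_lmn.LamLeung

namespace Pool.Agent.H284_lmn

open Finset

/-- `cos (π s / M)`. -/
noncomputable def cs (M s : ℕ) : ℝ := Real.cos (Real.pi * s / M)

lemma cs_refl {M s : ℕ} (hM : 0 < M) (hs : s ≤ M) : cs M (M - s) = - cs M s := by
  unfold cs
  have hM' : (M : ℝ) ≠ 0 := by exact_mod_cast hM.ne'
  have : Real.pi * ((M - s : ℕ) : ℝ) / M = Real.pi - Real.pi * s / M := by
    rw [Nat.cast_sub hs]
    field_simp
  rw [this, Real.cos_pi_sub]

/-- A finset of numbers strictly between `0` and `M` that is stable under `s ↦ M - s` without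
fixed points has cosine sum zero. -/
lemma sum_symm {M : ℕ} (S : Finset ℕ) (hS : ∀ s ∈ S, 0 < s ∧ s < M)
    (hsym : ∀ s ∈ S, M - s ∈ S) : ∑ s ∈ S, cs M s = 0 := by
  have h1 : ∑ s ∈ S, cs M s = ∑ s ∈ S, cs M (M - s) := by
    apply sum_nbij' (fun s => M - s) (fun s => M - s)
    · exact fun s hs => hsym s hs
    · exact fun s hs => hsym s hs
    · intro s hs
      have := hS s hs
      omega
    · intro s hs
      have := hS s hs
      omega
    · intro s hs
      have := hS s hs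
      congr 1; omega
  have h2 : ∑ s ∈ S, cs M (M - s) = - ∑ s ∈ S, cs M s := by
    rw [← sum_neg_distrib]
    apply sum_congr rfl
    intro s hs
    have := hS s hs
    exact cs_refl (by omega) (by omega)
  linarith

lemma even_card_symm {M : ℕ} (hM : Odd M) (S : Finset ℕ) (hS : ∀ s ∈ S, 0 < s ∧ s < M)
    (hsym : ∀ s ∈ S, M - s ∈ S) : Even S.card := by
  have h1 : (S.filter (fun s => 2 * s < M)).card = (S.filter (fun s => ¬ (2 * s < M))).card := by
    apply card_nbij' (fun s => M - s) (fun s => M - s)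
    · intro s hs
      simp only [coe_filter, Set.mem_ofPred_eq] at hs ⊢
      have := hS s hs.1
      exact ⟨hsym s hs.1, by omega⟩
    · intro s hs
      simp only [coe_filter, Set.mem_ofPred_eq] at hs ⊢
      have := hS s hs.1
      obtain ⟨k, hk⟩ := hM
      exact ⟨hsym s hs.1, by omega⟩
    · intro s hs
      simp only [coe_filter, Set.mem_ofPred_eq] at hs
      have := hS s hs.1
      simp only; omega
    · intro s hs
      simp only [coe_filter, Set.mem_ofPred_eq] at hs
      have := hS s hs.1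
      simp only; omega
  have h2 := card_filter_add_card_filter_not (s := S) (fun s => 2 * s < M)
  rw [← h2, ← h1]
  exact ⟨_, rfl⟩

lemma sum_all {M : ℕ} : ∑ s ∈ Ioo 0 M, cs M s = 0 := by
  apply sum_symm
  · intro s hs
    rw [mem_Ioo] at hs
    exact hs
  · intro s hs
    rw [mem_Ioo] at hs ⊢
    omega

lemma galois {M : ℕ} (hM : 0 < M) {ω ζ : ℂ} (hω : IsPrimitiveRoot ω M)
    (hζ : IsPrimitiveRoot ζ M) (T : Finset ℕ) (c : ℕ → ℚ)
    (h : ∑ j ∈ T, (c j : ℂ) * ω ^ j = 0) : ∑ j ∈ T, (c j : ℂ) * ζ ^ j = 0 := by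
  set f : Polynomial ℚ := ∑ j ∈ T, Polynomial.C (c j) * Polynomial.X ^ j with hf
  have hev : ∀ z : ℂ, Polynomial.aeval z f = ∑ j ∈ T, (c j : ℂ) * z ^ j := by
    intro z
    rw [hf, map_sum]
    apply sum_congr rfl
    intro j _
    simp [map_mul, Polynomial.aeval_C]
  rw [← hev] at h ⊢
  have h1 : minpoly ℚ ω ∣ f := minpoly.dvd ℚ ω h
  rw [← Polynomial.cyclotomic_eq_minpoly_rat hω hM,
    Polynomial.cyclotomic_eq_minpoly_rat hζ hM] at h1
  obtain ⟨g, hg⟩ := h1
  rw [hg, map_mul, minpoly.aeval, zero_mul]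

lemma omega_prim {M : ℕ} (hM : Odd M) :
    IsPrimitiveRoot (Complex.exp (2 * Real.pi * Complex.I * (((M + 1) / 2 : ℕ) / (M : ℕ)))) M := by
  apply Complex.isPrimitiveRoot_exp_of_coprime _ _ hM.pos.ne'
  obtain ⟨k, hk⟩ := hM
  have : (M + 1) / 2 = k + 1 := by omega
  rw [this, hk, show 2 * k + 1 = (k + 1) + k by ring]
  simp

lemma omega_pow {M : ℕ} (hM : Odd M) (s : ℕ) :
    (Complex.exp (2 * Real.pi * Complex.I * (((M + 1) / 2 : ℕ) / (M : ℕ)))) ^ s
      = (-1) ^ s * Complex.exp ((Real.pi * s / M : ℝ) * Complex.I) := by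
  rw [← Complex.exp_nat_mul]
  have h1 : (((M + 1) / 2 : ℕ) : ℂ) = ((M : ℂ) + 1) / 2 := by
    obtain ⟨k, hk⟩ := hM
    have : (M + 1) / 2 = k + 1 := by omega
    rw [this, hk]
    push_cast
    ring
  have hM' : (M : ℂ) ≠ 0 := by exact_mod_cast hM.pos.ne'
  have h2 : (s : ℂ) * (2 * Real.pi * Complex.I * (((M + 1) / 2 : ℕ) / (M : ℕ)))
      = (s : ℂ) * (Real.pi * Complex.I) + (Real.pi * s / M : ℝ) * Complex.I := by
    rw [h1]
    push_cast
    field_simp
  rw [h2, Complex.exp_add, Complex.exp_nat_mul, Complex.exp_pi_mul_I]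

lemma two_cs {M : ℕ} (hM : Odd M) (s : ℕ) (hs : s ≤ M) :
    (((2 * cs M s : ℝ)) : ℂ) =
      (-1) ^ s * (Complex.exp (2 * Real.pi * Complex.I * (((M + 1) / 2 : ℕ) / (M : ℕ)))) ^ s
      + (-1) ^ s *
        (Complex.exp (2 * Real.pi * Complex.I * (((M + 1) / 2 : ℕ) / (M : ℕ)))) ^ (M - s) := by
  rw [omega_pow hM, omega_pow hM]
  have hM' : (M : ℝ) ≠ 0 := by exact_mod_cast hM.pos.ne'
  have h1 : (Real.pi * ((M - s : ℕ) : ℝ) / M : ℝ) = Real.pi - Real.pi * s / M := by
    rw [Nat.cast_sub hs]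
    field_simp
  rw [h1]
  have h2 : ((Real.pi - Real.pi * s / M : ℝ) : ℂ) * Complex.I
      = Real.pi * Complex.I + (-((Real.pi * s / M : ℝ) : ℂ)) * Complex.I := by
    push_cast; ring
  rw [h2, Complex.exp_add, Complex.exp_pi_mul_I]
  have h3 : ((-1 : ℂ)) ^ s * (-1) ^ s = 1 := by
    rw [← mul_pow]; simp
  have h4 : ((-1 : ℂ)) ^ s * ((-1) ^ (M - s) * -1) = 1 := by
    rw [← mul_assoc, ← pow_add, Nat.add_sub_cancel' hs, hM.neg_one_pow]
    ring
  have h5 := Complex.two_cos ((Real.pi * s / M : ℝ) : ℂ)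
  unfold cs
  rw [Complex.ofReal_mul, Complex.ofReal_cos]
  rw [show ((2 : ℝ) : ℂ) = 2 by norm_num, h5]
  linear_combination (-Complex.exp (((Real.pi * s / M : ℝ) : ℂ) * Complex.I)) * h3
    - (Complex.exp (-((Real.pi * s / M : ℝ) : ℂ) * Complex.I)) * h4

/-- An odd number of cosines, fewer than the smallest prime factor of the odd number `M`. -/
theorem no_zero_sum {M : ℕ} (hM : Odd M) (S : Finset ℕ) (hS : ∀ s ∈ S, 0 < s ∧ s < M)
    (hodd : Odd S.card) (hlt : S.card < M.minFac) : ∑ s ∈ S, cs M s ≠ 0 := by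
  intro hzero
  set ω := Complex.exp (2 * Real.pi * Complex.I * (((M + 1) / 2 : ℕ) / (M : ℕ))) with hω
  have hωp : IsPrimitiveRoot ω M := omega_prim hM
  set W := S.filter (fun s => M - s ∉ S) with hW
  have hWS : W ⊆ S := filter_subset _ _
  have hWmem : ∀ s, s ∈ W ↔ s ∈ S ∧ M - s ∉ S := fun s => by rw [hW, mem_filter]
  -- the symmetric part contributes nothing
  have hsym0 : ∑ s ∈ S.filter (fun s => ¬ (M - s ∉ S)), cs M s = 0 := by
    apply sum_symm
    · intro s hs
      exact hS s (mem_filter.mp hs).1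
    · intro s hs
      rw [mem_filter, not_not] at hs ⊢
      have := hS s hs.1
      refine ⟨hs.2, ?_⟩
      rw [show M - (M - s) = s by omega]
      exact hs.1
  have hW0 : ∑ s ∈ W, cs M s = 0 := by
    have := sum_filter_add_sum_filter_not S (fun s => M - s ∉ S) (fun s => cs M s)
    rw [hsym0, hzero, add_zero] at this
    exact this
  have hWne : W.Nonempty := by
    rw [nonempty_iff_ne_empty]
    intro he
    have h1 : ∀ s ∈ S, M - s ∈ S := by
      intro s hs
      by_contra hcon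
      have : s ∈ W := (hWmem s).mpr ⟨hs, hcon⟩
      rw [he] at this
      exact absurd this (notMem_empty s)
    exact (Nat.not_odd_iff_even.mpr (even_card_symm hM S hS h1)) hodd
  set W' := W.image (fun s => M - s) with hW'
  have hdisj : Disjoint W W' := by
    rw [disjoint_left]
    intro s hs hs'
    rw [hW', mem_image] at hs'
    obtain ⟨r, hr, hrs⟩ := hs'
    have h1 := (hWmem r).mp hr
    have h2 := (hWmem s).mp hs
    exact h1.2 (hrs ▸ h2.1)
  have hinjW : Set.InjOn (fun s => M - s) (W : Set ℕ) := by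
    intro a ha b hb hab
    have h1 := hS a (hWS ha)
    have h2 := hS b (hWS hb)
    simp only at hab
    omega
  have hcardW' : W'.card = W.card := card_image_of_injOn hinjW
  set c : ℕ → ℚ := fun j => if j ∈ W then (-1) ^ j else (-1) ^ (M - j) with hc
  have hcne : ∀ j, c j ≠ 0 := by
    intro j
    simp only [hc]
    split_ifs
    · exact pow_ne_zero _ (by norm_num)
    · exact pow_ne_zero _ (by norm_num)
  have hrel : ∑ j ∈ W ∪ W', (c j : ℂ) * ω ^ j = 0 := by
    rw [sum_union hdisj, hW', sum_image hinjW, ← sum_add_distrib]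
    have h1 : ∀ s ∈ W, (c s : ℂ) * ω ^ s + (c (M - s) : ℂ) * ω ^ (M - s)
        = ((2 * cs M s : ℝ) : ℂ) := by
      intro s hs
      have hs1 := hS s (hWS hs)
      have hMs : M - s ∉ W := by
        intro h
        have : M - s ∈ S := hWS h
        exact ((hWmem s).mp hs).2 this
      rw [two_cs hM s hs1.2.le]
      simp only [hc, if_pos hs, if_neg hMs]
      rw [show M - (M - s) = s by omega]
      push_cast
      rfl
    rw [sum_congr rfl h1, ← Complex.ofReal_sum, ← mul_sum, hW0]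
    simp
  have hall : ∀ ζ : ℂ, IsPrimitiveRoot ζ M → ∑ j ∈ W ∪ W', (c j : ℂ) * ζ ^ j = 0 :=
    fun ζ hζ => galois hM.pos hωp hζ _ c hrel
  have hbd : ∀ j ∈ W ∪ W', 0 < j ∧ j < M := by
    intro j hj
    rw [mem_union] at hj
    rcases hj with hj | hj
    · exact hS j (hWS hj)
    · rw [hW', mem_image] at hj
      obtain ⟨r, hr, rfl⟩ := hj
      have := hS r (hWS hr)
      omega
  have h2 := lam_leung M hM M.minFac (fun q hq hqd => Nat.minFac_le_of_dvd hq.two_le hqd)
    (W ∪ W') (fun j => j) (fun j => (c j : ℂ)) (hWne.mono subset_union_left)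
    (fun j _ => by exact_mod_cast hcne j)
    (fun i hi j hj hij => by
      rw [Nat.mod_eq_of_lt (hbd i hi).2, Nat.mod_eq_of_lt (hbd j hj).2] at hij
      exact hij) hall
  rw [card_union_of_disjoint hdisj, hcardW'] at h2
  have h3 : W.card ≤ S.card := card_le_card hWS
  have h4 := h2.2 (by omega)
  exact (Nat.not_odd_iff_even.mpr ⟨_, rfl⟩) h4

/-- Adding the mirror images of a set without symmetric pairs. -/
lemma pair_sum {M : ℕ} (T : Finset ℕ) (hT : ∀ s ∈ T, 0 < s ∧ s < M)
    (hno : ∀ s ∈ T, M - s ∉ T) :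
    (T ∪ T.image (fun s => M - s)).card = 2 * T.card ∧
      ∑ s ∈ T ∪ T.image (fun s => M - s), cs M s = 0 ∧
      ∀ s ∈ T ∪ T.image (fun s => M - s), 0 < s ∧ s < M := by
  have hdisj : Disjoint T (T.image (fun s => M - s)) := by
    rw [disjoint_left]
    intro s hs hs'
    rw [mem_image] at hs'
    obtain ⟨r, hr, hrs⟩ := hs'
    exact hno r hr (hrs ▸ hs)
  have hinjT : Set.InjOn (fun s => M - s) (T : Set ℕ) := by
    intro a ha b hb hab
    have h1 := hT a ha
    have h2 := hT b hb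
    simp only at hab
    omega
  have hr : ∀ s ∈ T ∪ T.image (fun s => M - s), 0 < s ∧ s < M := by
    intro s hs
    rw [mem_union, mem_image] at hs
    rcases hs with hs | ⟨r, hr, rfl⟩
    · exact hT s hs
    · have := hT r hr
      omega
  refine ⟨?_, ?_, hr⟩
  · rw [card_union_of_disjoint hdisj, card_image_of_injOn hinjT]
    ring
  · apply sum_symm _ hr
    intro s hs
    rw [mem_union, mem_image] at hs ⊢
    rcases hs with hs | ⟨r, hr, rfl⟩
    · exact Or.inr ⟨s, hs, rfl⟩
    · left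
      have := hT r hr
      rw [show M - (M - r) = r by omega]
      exact hr

lemma compl_sum {M : ℕ} (S : Finset ℕ) (hS : ∀ s ∈ S, 0 < s ∧ s < M) :
    (Ioo 0 M \ S).card = M - 1 - S.card ∧ ∑ s ∈ Ioo 0 M \ S, cs M s = - ∑ s ∈ S, cs M s ∧
      ∀ s ∈ Ioo 0 M \ S, 0 < s ∧ s < M := by
  have hsub : S ⊆ Ioo 0 M := fun s hs => mem_Ioo.mpr (hS s hs)
  refine ⟨?_, ?_, ?_⟩
  · rw [card_sdiff_of_subset hsub, Nat.card_Ioo]
    simp
  · have := sum_sdiff (f := fun s => cs M s) hsub
    rw [sum_all] at this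
    linarith
  · intro s hs
    exact mem_Ioo.mp (mem_sdiff.mp hs).1

lemma even_case {m M : ℕ} (hm : Even m) (hmM : m < M) :
    ∃ S : Finset ℕ, (∀ s ∈ S, 0 < s ∧ s < M) ∧ S.card = m ∧ ∑ s ∈ S, cs M s = 0 := by
  obtain ⟨k, hk⟩ := hm
  obtain ⟨h1, h2, h3⟩ := pair_sum (M := M) (Ioc 0 k) (fun s hs => by
    rw [mem_Ioc] at hs; omega) (fun s hs => by
    rw [mem_Ioc] at hs ⊢; omega)
  exact ⟨_, h3, by rw [h1, Nat.card_Ioc]; omega, h2⟩

lemma odd_case {m M : ℕ} (hm : Odd m) (hM : Odd M) (hmM : m < M) (hp : M.minFac ≤ m)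
    (hp' : m + M.minFac < M) :
    ∃ S : Finset ℕ, (∀ s ∈ S, 0 < s ∧ s < M) ∧ S.card = m ∧ ∑ s ∈ S, cs M s = 0 := by
  have hMne : M ≠ 1 := by have := hm.pos; omega
  set p := M.minFac with hpdef
  have hpp : p.Prime := Nat.minFac_prime hMne
  obtain ⟨d, hd⟩ := Nat.minFac_dvd M
  rw [← hpdef] at hd
  have hpo : Odd p := by rw [hd] at hM; exact (Nat.odd_mul.mp hM).1
  have hdo : Odd d := by rw [hd] at hM; exact (Nat.odd_mul.mp hM).2
  have hd3 : 3 ≤ d := by
    have h1 : d ≠ 1 := by rintro rfl; omega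
    obtain ⟨k, hk⟩ := hdo
    omega
  have hppos := hpp.pos
  set r : ℕ → ℕ := fun t => if 2 + 2 * t * d < M then 2 + 2 * t * d else 2 * M - (2 + 2 * t * d)
    with hr
  have hbound : ∀ t, t < p → 2 + 2 * t * d < 2 * M := by
    intro t ht
    have h1 : (t + 1) * d ≤ p * d := Nat.mul_le_mul_right d ht
    rw [← hd] at h1
    nlinarith
  have hr1 : ∀ t, t < p → 0 < r t ∧ r t < M ∧ Even (r t) := by
    intro t ht
    have h1 := hbound t ht
    simp only [hr]
    obtain ⟨k, hk⟩ := hM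
    split_ifs with h
    · exact ⟨by omega, h, ⟨1 + t * d, by ring⟩⟩
    · refine ⟨by omega, ?_, ?_⟩
      · have h2 : 2 + 2 * t * d ≠ M := by
          intro he
          have : 2 * (1 + t * d) = 2 * k + 1 := by rw [← hk, ← he]; ring
          omega
        omega
      · refine ⟨M - (1 + t * d), ?_⟩
        have : 2 + 2 * t * d = 2 * (1 + t * d) := by ring
        omega
  have hrinj : Set.InjOn r (range p : Finset ℕ) := by
    intro a ha b hb hab
    rw [coe_range, Set.mem_Iio] at ha hb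
    have h1 := hbound a ha
    have h2 := hbound b hb
    have key : 2 + 2 * a * d = 2 + 2 * b * d ∨ (2 + 2 * a * d) + (2 + 2 * b * d) = 2 * M := by
      simp only [hr] at hab
      split_ifs at hab <;> omega
    rcases key with h | h
    · have h3 : a * d = b * d := by nlinarith
      exact Nat.eq_of_mul_eq_mul_right (by omega) h3
    · exfalso
      have h3 : 2 + (a + b) * d = p * d := by rw [← hd]; nlinarith
      have h4 : d ∣ 2 := by
        have h5 : d ∣ 2 + (a + b) * d := h3 ▸ Dvd.intro_left p rfl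
        exact (Nat.dvd_add_left (Dvd.intro_left (a + b) rfl)).mp h5
      have := Nat.le_of_dvd (by norm_num) h4
      omega
  set R := (range p).image r with hR
  have hRcard : R.card = p := by rw [hR, card_image_of_injOn hrinj, card_range]
  have hRmem : ∀ s ∈ R, 0 < s ∧ s < M ∧ Even s := by
    intro s hs
    rw [hR, mem_image] at hs
    obtain ⟨t, ht, rfl⟩ := hs
    exact hr1 t (mem_range.mp ht)
  have hMC : (M : ℂ) ≠ 0 := by exact_mod_cast hM.pos.ne'
  have hMR : (M : ℝ) ≠ 0 := by exact_mod_cast hM.pos.ne'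
  have hpC : (p : ℂ) ≠ 0 := by exact_mod_cast hppos.ne'
  have hRsum : ∑ s ∈ R, cs M s = 0 := by
    rw [hR, sum_image hrinj]
    have h1 : ∀ t ∈ range p, cs M (r t) =
        (Complex.exp (2 * Real.pi * Complex.I / M) * (Complex.exp (2 * Real.pi * Complex.I / p)) ^ t).re := by
      intro t ht
      rw [mem_range] at ht
      have h2 : cs M (r t) = Real.cos (Real.pi * (2 + 2 * t * d) / M) := by
        simp only [hr]
        split_ifs with h
        · unfold cs
          push_cast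
          rfl
        · unfold cs
          rw [Nat.cast_sub (hbound t ht).le]
          push_cast
          rw [← Real.cos_two_pi_sub]
          congr 1
          field_simp
          ring
      rw [h2, ← Complex.exp_nat_mul, ← Complex.exp_add, ← Complex.exp_ofReal_mul_I_re]
      congr 2
      have h3 : (M : ℂ) = p * d := by rw [hd]; push_cast; rfl
      have hdC : (d : ℂ) ≠ 0 := by
        have : d ≠ 0 := by omega
        exact_mod_cast this
      push_cast
      rw [h3]
      field_simp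
    rw [sum_congr rfl h1, ← Complex.re_sum, ← mul_sum,
      (Complex.isPrimitiveRoot_exp p hppos.ne').geom_sum_eq_zero hpp.one_lt, mul_zero]
    simp
  -- even numbers outside R
  set E := (range ((M - 1) / 2)).image (fun k => 2 * k + 2) with hE
  have hEcard : E.card = (M - 1) / 2 := by
    rw [hE, card_image_of_injective _ (fun a b h => by
      have h' : 2 * a + 2 = 2 * b + 2 := h
      omega), card_range]
  have hEmem : ∀ s ∈ E, 0 < s ∧ s < M ∧ Even s := by
    intro s hs
    rw [hE, mem_image] at hs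
    obtain ⟨k, hk, rfl⟩ := hs
    rw [mem_range] at hk
    exact ⟨by omega, by omega, ⟨k + 1, by ring⟩⟩
  have hcardER : (m - p) / 2 ≤ (E \ R).card := by
    have h1 := le_card_sdiff R E
    rw [hRcard, hEcard] at h1
    refine le_trans ?_ h1
    obtain ⟨a, ha⟩ := hm
    obtain ⟨b, hb⟩ := hM
    obtain ⟨c, hc⟩ := hpo
    omega
  obtain ⟨T, hTsub, hTcard⟩ := exists_subset_card_eq hcardER
  have hTmem : ∀ s ∈ T, 0 < s ∧ s < M ∧ Even s := fun s hs => hEmem s (mem_sdiff.mp (hTsub hs)).1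
  have hTR : ∀ s ∈ T, s ∉ R := fun s hs => (mem_sdiff.mp (hTsub hs)).2
  obtain ⟨h1, h2, h3⟩ := pair_sum (M := M) T (fun s hs => ⟨(hTmem s hs).1, (hTmem s hs).2.1⟩)
    (fun s hs hs' => by
      have e1 := hTmem s hs
      have e2 := (hTmem _ hs').2.2
      obtain ⟨a, ha⟩ := e1.2.2
      obtain ⟨b, hb⟩ := e2
      obtain ⟨c, hc⟩ := hM
      omega)
  have hdisj : Disjoint R (T ∪ T.image (fun s => M - s)) := by
    rw [disjoint_left]
    intro s hs hs'
    rw [mem_union, mem_image] at hs'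
    rcases hs' with hs' | ⟨a, ha, rfl⟩
    · exact hTR s hs' hs
    · have e1 := hTmem a ha
      have e2 := (hRmem _ hs).2.2
      obtain ⟨x, hx⟩ := e1.2.2
      obtain ⟨y, hy⟩ := e2
      obtain ⟨z, hz⟩ := hM
      omega
  refine ⟨R ∪ (T ∪ T.image (fun s => M - s)), ?_, ?_, ?_⟩
  · intro s hs
    rw [mem_union] at hs
    rcases hs with hs | hs
    · exact ⟨(hRmem s hs).1, (hRmem s hs).2.1⟩
    · exact h3 s hs
  · rw [card_union_of_disjoint hdisj, hRcard, h1, hTcard]
    obtain ⟨a, ha⟩ := hm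
    obtain ⟨c, hc⟩ := hpo
    omega
  · rw [sum_union hdisj, hRsum, h2, add_zero]

theorem exists_zero_sum (m n : ℕ) (hm : 1 ≤ m) (hn : 1 ≤ n)
    (h : ¬ (Odd m ∧ Odd n ∧ min m n < (m + n + 1).minFac)) :
    ∃ S : Finset ℕ, (∀ s ∈ S, 0 < s ∧ s < m + n + 1) ∧ S.card = m ∧
      ∑ s ∈ S, cs (m + n + 1) s = 0 := by
  by_cases hm2 : Even m
  · exact even_case hm2 (by omega)
  by_cases hn2 : Even n
  · obtain ⟨S, h1, h2, h3⟩ := even_case (M := m + n + 1) hn2 (by omega)
    obtain ⟨h4, h5, h6⟩ := compl_sum S h1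
    exact ⟨_, h6, by omega, by rw [h5, h3, neg_zero]⟩
  have hmo : Odd m := Nat.not_even_iff_odd.mp hm2
  have hno : Odd n := Nat.not_even_iff_odd.mp hn2
  have hle : (m + n + 1).minFac ≤ min m n := by
    by_contra hcon
    exact h ⟨hmo, hno, by omega⟩
  have hMo : Odd (m + n + 1) := by
    obtain ⟨a, ha⟩ := hmo
    obtain ⟨b, hb⟩ := hno
    exact ⟨a + b + 1, by omega⟩
  exact odd_case hmo hMo (by omega) (by omega) (by omega)

end Pool.Agent.H284_lmn
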