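import Mathlib

namespace Pool.Agent.H284_lmn

/-- The poset `L(m,n)`: the partitions with at most `m` parts, each part at most `n`, written
as weakly decreasing sequences `l 0 ≥ l 1 ≥ ... ≥ l (m-1)` with values in `{0,...,n}`, with the
componentwise order (containment of Young diagrams). -/
abbrev L (m n : ℕ) : Type := {l : Fin m → Fin (n + 1) // Antitone l}

open Classical in
/-- The adjacency matrix over `ℝ` of the Hasse diagram of `L(m,n)`: the entry at `(a, b)` is
`1` if `b` covers `a` or `a` covers `b`, and `0` otherwise. -/
noncomputable def A (m n : ℕ) : Matrix (L m n) (L m n) ℝ :=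
  (SimpleGraph.hasse (L m n)).adjMatrix ℝ

end Pool.Agent.H284_lmn
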