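import Mathlib
import Pool.Agent.H284_lmn.Defs

namespace Pool.Agent.H284_lmn

open Finset

variable {m n : ℕ}

/-- The shifted (strictly decreasing) sequence of a partition. -/
def sh (l : L m n) : Fin m → ℤ := fun i => ((l.1 i : ℕ) : ℤ) + ((m : ℤ) - 1 - (i : ℕ))

lemma sh_strictAnti (l : L m n) : StrictAnti (sh l) := by
  intro i j hij
  have h1 : (l.1 j : ℕ) ≤ (l.1 i : ℕ) := l.2 hij.le
  have h2 : (i : ℕ) < (j : ℕ) := hij
  unfold sh
  omega

lemma sh_nonneg (l : L m n) (i : Fin m) : 0 ≤ sh l i := by
  have := i.2
  unfold sh
  omega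

lemma sh_lt (l : L m n) (i : Fin m) : sh l i < (m + n : ℕ) := by
  have := i.2
  have := (l.1 i).2
  unfold sh
  push_cast
  omega

lemma sh_injective : Function.Injective (sh : L m n → Fin m → ℤ) := by
  intro a b h
  apply Subtype.ext
  funext i
  apply Fin.ext
  have := congrFun h i
  unfold sh at this
  omega

lemma strictAnti_gap {t : Fin m → ℤ} (ht : StrictAnti t) (k : ℕ) :
    ∀ i j : Fin m, (j : ℕ) = i + k → t j + k ≤ t i := by
  induction k with
  | zero =>
    intro i j h
    have : j = i := Fin.ext (by omega)
    subst this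
    simp
  | succ k ih =>
    intro i j h
    have hj := j.2
    have h1 := ih i ⟨i + k, by omega⟩ rfl
    have h2 : t j < t ⟨i + k, by omega⟩ := ht (by
      rw [Fin.lt_def]; simp only; omega)
    push_cast
    omega

lemma exists_sh {t : Fin m → ℤ} (ht : StrictAnti t) (h0 : ∀ i, 0 ≤ t i)
    (h1 : ∀ i, t i < (m + n : ℕ)) : ∃ l : L m n, sh l = t := by
  have lo : ∀ i : Fin m, (m : ℤ) - 1 - (i : ℕ) ≤ t i := by
    intro i
    have hi := i.2
    have := strictAnti_gap ht (m - 1 - i) i ⟨m - 1, by omega⟩ (by simp only; omega)
    have h2 := h0 ⟨m - 1, by omega⟩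
    omega
  have hi : ∀ i : Fin m, t i ≤ (n : ℤ) + ((m : ℤ) - 1 - (i : ℕ)) := by
    intro i
    have hi := i.2
    have := strictAnti_gap ht i ⟨0, by omega⟩ i (by simp only; omega)
    have h2 := h1 ⟨0, by omega⟩
    push_cast at h2
    omega
  refine ⟨⟨fun i => ⟨(t i - ((m : ℤ) - 1 - (i : ℕ))).toNat, ?_⟩, ?_⟩, ?_⟩
  · have := lo i
    have := hi i
    omega
  · intro i j hij
    rw [Fin.le_def]
    simp only
    have := strictAnti_gap ht (j - i) i j (by
      have : (i : ℕ) ≤ j := hij
      omega)
    have h2 : (i : ℕ) ≤ j := hij
    omega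
  · funext i
    have := lo i
    unfold sh
    simp only
    omega

lemma step_iff (a b : L m n) (j : Fin m) :
    sh b = sh a + Pi.single j 1 ↔ ∀ k, (b.1 k : ℕ) = (a.1 k : ℕ) + if k = j then 1 else 0 := by
  constructor
  · intro h k
    have := congrFun h k
    simp only [Pi.add_apply, Pi.single_apply] at this
    unfold sh at this
    split_ifs at this ⊢ <;> omega
  · intro h
    funext k
    have := h k
    simp only [Pi.add_apply, Pi.single_apply]
    unfold sh
    split_ifs at this ⊢ <;> omega

lemma covBy_iff (a b : L m n) : a ⋖ b ↔ ∃ j, sh b = sh a + Pi.single j 1 := by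
  simp only [step_iff]
  constructor
  · intro h
    have hle : ∀ k, a.1 k ≤ b.1 k := h.1.le
    have hne : ∃ k, a.1 k < b.1 k := by
      by_contra hcon
      push Not at hcon
      exact absurd h.1 (not_lt_of_ge hcon)
    obtain ⟨i, hi, hmin⟩ := WellFounded.has_min (wellFounded_lt (α := Fin m))
      {k | a.1 k < b.1 k} hne
    have hi' : (a.1 i : ℕ) < (b.1 i : ℕ) := hi
    have hbi := (b.1 i).2
    have heq : ∀ k, k < i → (a.1 k : ℕ) = b.1 k := by
      intro k hk
      have h1 : ¬ (a.1 k < b.1 k) := fun hlt => hmin k hlt hk
      have h2 : (a.1 k : ℕ) ≤ b.1 k := hle k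
      have h3 : ¬ ((a.1 k : ℕ) < b.1 k) := h1
      omega
    let c : L m n := ⟨fun k => if k = i then ⟨a.1 i + 1, by omega⟩ else a.1 k, by
      intro x y hxy
      rw [Fin.le_def]
      simp only
      have hay : (a.1 y : ℕ) ≤ a.1 x := a.2 hxy
      by_cases hy : y = i
      · by_cases hx : x = i
        · simp [hy, hx]
        · have hxi : x < i := lt_of_le_of_ne (hy ▸ hxy) hx
          have h1 := heq x hxi
          have h2 : (b.1 i : ℕ) ≤ b.1 x := b.2 hxi.le
          simp only [hy, if_true, hx, if_false]
          omega
      · by_cases hx : x = i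
        · simp only [hy, if_false, hx, if_true]
          rw [hx] at hay
          omega
        · simp only [hy, if_false, hx]
          exact hay⟩
    have hac : a < c := by
      refine lt_of_le_of_ne ?_ ?_
      · intro k
        rw [Fin.le_def]
        change (a.1 k : ℕ) ≤ ((if k = i then (⟨a.1 i + 1, by omega⟩ : Fin (n+1)) else a.1 k : Fin (n+1)) : ℕ)
        by_cases hk : k = i
        · simp [hk]
        · simp [hk]
      · intro hc
        have h1 : a.1 i = c.1 i := by rw [← hc]
        have h2 : (a.1 i : ℕ) = (c.1 i : ℕ) := by rw [← h1]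
        have h3 : (c.1 i : ℕ) = a.1 i + 1 := by simp [c]
        omega
    have hcb : c ≤ b := by
      intro k
      rw [Fin.le_def]
      change ((if k = i then (⟨a.1 i + 1, by omega⟩ : Fin (n+1)) else a.1 k : Fin (n+1)) : ℕ) ≤ b.1 k
      by_cases hk : k = i
      · simp only [hk, if_true]
        omega
      · simp only [hk, if_false]
        exact hle k
    have hcb' : c = b := by
      by_contra hne
      exact h.2 hac (lt_of_le_of_ne hcb hne)
    refine ⟨i, fun k => ?_⟩
    rw [← hcb']
    by_cases hk : k = i
    · simp [c, hk]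
    · simp [c, hk]
  · rintro ⟨j, hj⟩
    constructor
    · refine lt_of_le_of_ne ?_ ?_
      · intro k
        rw [Fin.le_def]
        have := hj k
        omega
      · intro he
        have := hj j
        rw [he] at this
        simp at this
    · intro c hac hcb
      have h1 : ∀ k, (a.1 k : ℕ) ≤ c.1 k := fun k => hac.le k
      have h2 : ∀ k, (c.1 k : ℕ) ≤ b.1 k := fun k => hcb.le k
      by_cases hc : (c.1 j : ℕ) = a.1 j
      · apply hac.ne
        apply Subtype.ext
        funext k
        apply Fin.ext
        by_cases hk : k = j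
        · rw [hk, hc]
        · have h3 := hj k
          have := h1 k
          have := h2 k
          rw [if_neg hk] at h3
          omega
      · apply hcb.ne
        apply Subtype.ext
        funext k
        apply Fin.ext
        by_cases hk : k = j
        · have h3 := hj k
          rw [if_pos hk] at h3
          subst hk
          have := h1 k
          have := h2 k
          omega
        · have h3 := hj k
          have := h1 k
          have := h2 k
          rw [if_neg hk] at h3
          omega

lemma A_apply (a b : L m n) :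
    A m n a b = ∑ j : Fin m, ((if sh b = sh a + Pi.single j 1 then (1 : ℝ) else 0) +
      (if sh b = sh a - Pi.single j 1 then (1 : ℝ) else 0)) := by
  classical
  have hA : A m n a b = if (a ⋖ b ∨ b ⋖ a) then (1 : ℝ) else 0 := by
    unfold A
    rw [SimpleGraph.adjMatrix_apply]
    simp only [SimpleGraph.hasse_adj]
  rw [hA]
  by_cases h1 : a ⋖ b
  · rw [if_pos (Or.inl h1)]
    obtain ⟨j0, hj0⟩ := (covBy_iff a b).mp h1
    have h2 : ∀ j : Fin m, ((if sh b = sh a + Pi.single j 1 then (1 : ℝ) else 0) +
      (if sh b = sh a - Pi.single j 1 then (1 : ℝ) else 0)) = if j = j0 then 1 else 0 := by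
      intro j
      have e2 : ¬ (sh b = sh a - Pi.single j 1) := by
        intro he
        have := congrFun (hj0.symm.trans he) j0
        simp only [Pi.add_apply, Pi.sub_apply, Pi.single_apply] at this
        split_ifs at this <;> omega
      rw [if_neg e2, add_zero]
      by_cases hj : j = j0
      · rw [hj, if_pos hj0, if_pos rfl]
      · rw [if_neg hj, if_neg]
        intro he
        have := congrFun (hj0.symm.trans he) j0
        simp only [Pi.add_apply, Pi.single_apply] at this
        rw [if_pos trivial, if_neg (fun h => hj h.symm)] at this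
        omega
    simp only [h2]
    simp
  · by_cases h3 : b ⋖ a
    · rw [if_pos (Or.inr h3)]
      obtain ⟨j0, hj0⟩ := (covBy_iff b a).mp h3
      have hj0' : sh b = sh a - Pi.single j0 1 := by rw [hj0]; simp
      have h2 : ∀ j : Fin m, ((if sh b = sh a + Pi.single j 1 then (1 : ℝ) else 0) +
        (if sh b = sh a - Pi.single j 1 then (1 : ℝ) else 0)) = if j = j0 then 1 else 0 := by
        intro j
        have e2 : ¬ (sh b = sh a + Pi.single j 1) := by
          intro he
          have := congrFun (hj0'.symm.trans he) j0
          simp only [Pi.add_apply, Pi.sub_apply, Pi.single_apply] at this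
          split_ifs at this <;> omega
        rw [if_neg e2, zero_add]
        by_cases hj : j = j0
        · rw [hj, if_pos hj0', if_pos rfl]
        · rw [if_neg hj, if_neg]
          intro he
          have := congrFun (hj0'.symm.trans he) j0
          simp only [Pi.sub_apply, Pi.single_apply] at this
          rw [if_pos trivial, if_neg (fun h => hj h.symm)] at this
          omega
      simp only [h2]
      simp
    · rw [if_neg (by tauto)]
      symm
      apply sum_eq_zero
      intro j _
      have e1 : ¬ (sh b = sh a + Pi.single j 1) := fun he => h1 ((covBy_iff a b).mpr ⟨j, he⟩)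
      have e2 : ¬ (sh b = sh a - Pi.single j 1) := fun he =>
        h3 ((covBy_iff b a).mpr ⟨j, by rw [he]; simp⟩)
      rw [if_neg e1, if_neg e2, add_zero]

end Pool.Agent.H284_lmn
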