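import Mathlib

namespace Pool.Agent.H284_lmn

open Finset

/-- The sine function of the path on `N` vertices, extended to all integers. -/
noncomputable def U (N : ℕ) (s : ℤ) (x : ℤ) : ℝ :=
  Real.sin (Real.pi * ((s : ℝ) + 1) * ((x : ℝ) + 1) / ((N : ℝ) + 1))

/-- The eigenvalues of the path on `N` vertices. -/
noncomputable def lam (N : ℕ) (s : ℤ) : ℝ :=
  2 * Real.cos (Real.pi * ((s : ℝ) + 1) / ((N : ℝ) + 1))

lemma U_rec (N : ℕ) (s x : ℤ) :
    U N s (x + 1) + U N s (x - 1) = lam N s * U N s x := by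
  unfold U lam
  push_cast
  have h1 : Real.pi * ((s : ℝ) + 1) * (((x : ℝ) + 1) + 1) / ((N : ℝ) + 1) =
      Real.pi * ((s : ℝ) + 1) * ((x : ℝ) + 1) / ((N : ℝ) + 1) +
        Real.pi * ((s : ℝ) + 1) / ((N : ℝ) + 1) := by ring
  have h2 : Real.pi * ((s : ℝ) + 1) * (((x : ℝ) - 1) + 1) / ((N : ℝ) + 1) =
      Real.pi * ((s : ℝ) + 1) * ((x : ℝ) + 1) / ((N : ℝ) + 1) -
        Real.pi * ((s : ℝ) + 1) / ((N : ℝ) + 1) := by ring
  rw [h1, h2, Real.sin_add, Real.sin_sub]
  ring

lemma U_neg_one (N : ℕ) (s : ℤ) : U N s (-1) = 0 := by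
  unfold U; simp

lemma U_last (N : ℕ) (s : ℤ) : U N s N = 0 := by
  unfold U
  have h : (N : ℝ) + 1 ≠ 0 := by positivity
  have : Real.pi * ((s : ℝ) + 1) * (((N : ℤ) : ℝ) + 1) / ((N : ℝ) + 1) =
      ((s + 1 : ℤ) : ℝ) * Real.pi := by
    push_cast
    field_simp
  rw [this]
  exact Real.sin_int_mul_pi _

lemma U_symm (N : ℕ) (s x : ℤ) : U N s x = U N x s := by
  unfold U; congr 1; ring

lemma orth_aux (N : ℕ) (s s' : ℤ) (k : ℕ) :
    ∑ x ∈ range k, (U N s (x + 1) * U N s' x - U N s x * U N s' (x + 1)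
      + (U N s (x - 1) * U N s' x - U N s x * U N s' (x - 1)))
      = U N s k * U N s' (k - 1) - U N s (k - 1) * U N s' k := by
  induction k with
  | zero =>
    simp only [range_zero, sum_empty, Nat.cast_zero, zero_sub]
    rw [U_neg_one, U_neg_one]; ring
  | succ k ih =>
    rw [sum_range_succ, ih]
    push_cast
    rw [add_sub_cancel_right]
    ring

lemma lam_ne (N : ℕ) {s s' : ℕ} (hs : s < N) (hs' : s' < N) (h : s ≠ s') :
    lam N s ≠ lam N s' := by
  intro he
  unfold lam at he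
  have h1 := mul_left_cancel₀ two_ne_zero he
  have hN : (0 : ℝ) < (N : ℝ) + 1 := by positivity
  have hb : ∀ r : ℕ, r < N → Real.pi * (((r : ℤ) : ℝ) + 1) / ((N : ℝ) + 1) ∈ Set.Icc 0 Real.pi := by
    intro r hr
    have hr' : (r : ℝ) + 1 ≤ (N : ℝ) + 1 := by
      have : (r : ℝ) ≤ N := by exact_mod_cast hr.le
      linarith
    constructor
    · have := Real.pi_pos
      push_cast
      positivity
    · rw [div_le_iff₀ hN]
      push_cast
      exact mul_le_mul_of_nonneg_left hr' Real.pi_pos.le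
  have h2 := Real.injOn_cos (hb s hs) (hb s' hs') h1
  apply h
  have : ((s : ℤ) : ℝ) = ((s' : ℤ) : ℝ) := by
    field_simp at h2
    linarith
  exact_mod_cast this

lemma orth (N : ℕ) {s s' : ℕ} (hs : s < N) (hs' : s' < N) (h : s ≠ s') :
    ∑ x ∈ range N, U N s x * U N s' x = 0 := by
  have h1 := orth_aux N s s' N
  rw [U_last, U_last] at h1
  have h2 : ∑ x ∈ range N, (U N s (x + 1) * U N s' x - U N s x * U N s' (x + 1)
      + (U N s (x - 1) * U N s' x - U N s x * U N s' (x - 1)))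
      = (lam N s - lam N s') * ∑ x ∈ range N, U N s x * U N s' x := by
    rw [mul_sum]
    apply sum_congr rfl
    intro x _
    have e1 := U_rec N s x
    have e2 := U_rec N s' x
    calc _ = (U N s (x + 1) + U N s (x - 1)) * U N s' x
          - U N s x * (U N s' (x + 1) + U N s' (x - 1)) := by ring
      _ = _ := by rw [e1, e2]; ring
  rw [h2] at h1
  have h3 : lam N s - lam N s' ≠ 0 := sub_ne_zero.mpr (lam_ne N hs hs' h)
  have h4 : (lam N s - lam N s') * ∑ x ∈ range N, U N s x * U N s' x = 0 := by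
    rw [h1]; ring
  exact (mul_eq_zero.mp h4).resolve_left h3

lemma norm_pos (N : ℕ) {s : ℕ} (hs : s < N) :
    0 < ∑ x ∈ range N, U N s x * U N s x := by
  apply sum_pos'
  · intro x _; exact mul_self_nonneg _
  · refine ⟨0, mem_range.mpr (by omega), ?_⟩
    have : 0 < U N s (0 : ℕ) := by
      unfold U
      apply Real.sin_pos_of_pos_of_lt_pi
      · have := Real.pi_pos
        push_cast
        positivity
      · have hN : (0 : ℝ) < (N : ℝ) + 1 := by positivity
        rw [div_lt_iff₀ hN]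
        push_cast
        have : (s : ℝ) < N := by exact_mod_cast hs
        have := Real.pi_pos
        nlinarith
    positivity

end Pool.Agent.H284_lmn
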