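import Mathlib
import Pool.Agent.H284_lmn.Sine
import Pool.Agent.H284_lmn.Comb

namespace Pool.Agent.H284_lmn

open Finset

variable {m n : ℕ}

/-- The Slater determinant of the one-particle states `s` at the positions `t`. -/
noncomputable def D (N : ℕ) (s t : Fin m → ℤ) : ℝ :=
  (Matrix.of fun i j => U N (s i) (t j)).det

lemma D_symm (N : ℕ) (s t : Fin m → ℤ) : D N s t = D N t s := by
  unfold D
  rw [← Matrix.det_transpose]
  congr 1
  ext i j
  simp only [Matrix.transpose_apply, Matrix.of_apply]
  exact U_symm _ _ _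

lemma D_eq_zero_of_not_injective (N : ℕ) (s t : Fin m → ℤ) (h : ¬ Function.Injective t) :
    D N s t = 0 := by
  unfold Function.Injective at h
  push Not at h
  obtain ⟨i, j, hij, hne⟩ := h
  unfold D
  apply Matrix.det_zero_of_column_eq hne
  intro k
  simp only [Matrix.of_apply, hij]

lemma D_perm (N : ℕ) (s t : Fin m → ℤ) (π : Equiv.Perm (Fin m)) :
    D N s (t ∘ π) = (Equiv.Perm.sign π : ℤ) * D N s t := by
  unfold D
  have := Matrix.det_permute' π (Matrix.of fun i j => U N (s i) (t j))
  rw [← this]
  congr 1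

/-- Sum over the columns of the determinants with one column multiplied by the row factors. -/
lemma sum_det_col (B : Matrix (Fin m) (Fin m) ℝ) (v : Fin m → ℝ) :
    ∑ j, (B.updateCol j (fun i => v i * B i j)).det = (∑ i, v i) * B.det := by
  have h1 : ∀ j, (B.updateCol j (fun i => v i * B i j)).det
      = (B.adjugate * (Matrix.diagonal v * B)) j j := by
    intro j
    rw [← Matrix.cramer_apply, Matrix.cramer_eq_adjugate_mulVec, Matrix.mul_apply]
    simp only [Matrix.mulVec, dotProduct, Matrix.diagonal_mul]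
  simp only [h1]
  change Matrix.trace (B.adjugate * (Matrix.diagonal v * B)) = _
  rw [Matrix.trace_mul_comm, Matrix.mul_assoc, Matrix.mul_adjugate]
  simp only [Matrix.mul_smul, mul_one, Matrix.trace_smul, Matrix.trace_diagonal, smul_eq_mul]
  ring

lemma D_shift (N : ℕ) (s t : Fin m → ℤ) :
    ∑ j, (D N s (t + Pi.single j 1) + D N s (t - Pi.single j 1))
      = (∑ i, lam N (s i)) * D N s t := by
  rw [show D N s t = (Matrix.of fun i j => U N (s i) (t j)).det from rfl, ← sum_det_col]
  apply sum_congr rfl
  intro j _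
  have h1 : ∀ w : Fin m → ℤ, (∀ k, k ≠ j → w k = t k) →
      D N s w = ((Matrix.of fun i j => U N (s i) (t j)).updateCol j
        (fun i => U N (s i) (w j))).det := by
    intro w hw
    unfold D
    congr 1
    ext i k
    by_cases hk : k = j
    · subst hk
      simp
    · simp only [Matrix.of_apply, Matrix.updateCol_apply, if_neg hk, hw k hk]
  rw [h1 (t + Pi.single j 1) (by intro k hk; simp [hk]),
    h1 (t - Pi.single j 1) (by intro k hk; simp [hk]), ← Matrix.det_updateCol_add]
  congr 2
  funext i
  simp only [Pi.add_apply, Pi.sub_apply, Pi.single_eq_same, Matrix.of_apply]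
  exact U_rec N (s i) (t j)

lemma exists_of_D_ne (s t : Fin m → ℤ) (hanti : Antitone t) (h1 : ∀ i, -1 ≤ t i)
    (h2 : ∀ i, t i ≤ (m + n : ℕ)) (hD : D (m + n) s t ≠ 0) : ∃ b : L m n, sh b = t := by
  have hinj : Function.Injective t := by
    by_contra hcon
    exact hD (D_eq_zero_of_not_injective _ s t hcon)
  have hst : StrictAnti t := hanti.strictAnti_of_injective hinj
  apply exists_sh hst
  · intro i
    by_contra hcon
    have hi : t i = -1 := by have := h1 i; omega
    apply hD
    unfold D
    apply Matrix.det_eq_zero_of_column_eq_zero i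
    intro k
    simp only [Matrix.of_apply, hi, U_neg_one]
  · intro i
    by_contra hcon
    have hi : t i = ((m + n : ℕ) : ℤ) := by have := h2 i; omega
    apply hD
    unfold D
    apply Matrix.det_eq_zero_of_column_eq_zero i
    intro k
    simp only [Matrix.of_apply, hi, U_last]

lemma sum_if_sh (s t : Fin m → ℤ) (hanti : Antitone t) (h1 : ∀ i, -1 ≤ t i)
    (h2 : ∀ i, t i ≤ (m + n : ℕ)) :
    ∑ b : L m n, (if sh b = t then (1 : ℝ) else 0) * D (m + n) s (sh b) = D (m + n) s t := by
  by_cases hD : D (m + n) s t = 0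
  · rw [hD]
    apply sum_eq_zero
    intro b _
    by_cases hb : sh b = t
    · rw [hb, hD, mul_zero]
    · rw [if_neg hb, zero_mul]
  · obtain ⟨b0, hb0⟩ := exists_of_D_ne s t hanti h1 h2 hD
    rw [sum_eq_single b0]
    · rw [if_pos hb0, hb0, one_mul]
    · intro b _ hb
      rw [if_neg, zero_mul]
      intro he
      exact hb (sh_injective (he.trans hb0.symm))
    · intro h
      exact absurd (mem_univ _) h

lemma up_ok (a : L m n) (j : Fin m) : Antitone (sh a + Pi.single j 1) ∧
    (∀ i, -1 ≤ (sh a + Pi.single j 1 : Fin m → ℤ) i) ∧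
    ∀ i, (sh a + Pi.single j 1 : Fin m → ℤ) i ≤ (m + n : ℕ) := by
  refine ⟨?_, ?_, ?_⟩
  · intro x y hxy
    simp only [Pi.add_apply, Pi.single_apply]
    rcases hxy.lt_or_eq with h | h
    · have := sh_strictAnti a h
      split_ifs <;> omega
    · rw [h]
  · intro i
    have := sh_nonneg a i
    simp only [Pi.add_apply, Pi.single_apply]
    split_ifs <;> omega
  · intro i
    have := sh_lt a i
    simp only [Pi.add_apply, Pi.single_apply]
    split_ifs <;> omega

lemma down_ok (a : L m n) (j : Fin m) : Antitone (sh a - Pi.single j 1) ∧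
    (∀ i, -1 ≤ (sh a - Pi.single j 1 : Fin m → ℤ) i) ∧
    ∀ i, (sh a - Pi.single j 1 : Fin m → ℤ) i ≤ (m + n : ℕ) := by
  refine ⟨?_, ?_, ?_⟩
  · intro x y hxy
    simp only [Pi.sub_apply, Pi.single_apply]
    rcases hxy.lt_or_eq with h | h
    · have := sh_strictAnti a h
      split_ifs <;> omega
    · rw [h]
  · intro i
    have := sh_nonneg a i
    simp only [Pi.sub_apply, Pi.single_apply]
    split_ifs <;> omega
  · intro i
    have := sh_lt a i
    simp only [Pi.sub_apply, Pi.single_apply]
    split_ifs <;> omega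

/-- The Slater determinants are eigenvectors of the adjacency matrix. -/
lemma A_eigen (s : Fin m → ℤ) (a : L m n) :
    ∑ b, A m n a b * D (m + n) s (sh b) = (∑ i, lam (m + n) (s i)) * D (m + n) s (sh a) := by
  rw [← D_shift]
  simp only [A_apply, sum_mul]
  rw [sum_comm]
  apply sum_congr rfl
  intro j _
  simp only [add_mul, sum_add_distrib]
  obtain ⟨h1, h2, h3⟩ := up_ok a j
  obtain ⟨h4, h5, h6⟩ := down_ok a j
  rw [sum_if_sh s _ h1 h2 h3, sum_if_sh s _ h4 h5 h6]

end Pool.Agent.H284_lmn
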