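import Mathlib
import Pool.Agent.H284_lmn.Slater

namespace Pool.Agent.H284_lmn

open Finset

variable {m n : ℕ}

lemma det_sum {κ : Type} [Fintype κ] [DecidableEq κ] (a : Fin m → κ → ℝ) (b : κ → Fin m → ℝ) :
    ∑ s : Fin m → κ, (∏ i, a i (s i)) * (Matrix.of fun i j => b (s i) j).det
      = (Matrix.of fun i j => ∑ x, a i x * b x j).det := by
  rw [← Matrix.det_transpose, Matrix.det_apply']
  simp only [Matrix.transpose_apply, Matrix.of_apply]
  have h1 : ∀ s : Fin m → κ, (Matrix.of fun i j => b (s i) j).det
      = ∑ σ : Equiv.Perm (Fin m), ((Equiv.Perm.sign σ : ℤ) : ℝ) * ∏ i, b (s i) (σ i) := by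
    intro s
    rw [← Matrix.det_transpose, Matrix.det_apply']
    simp only [Matrix.transpose_apply, Matrix.of_apply]
  simp only [h1, mul_sum]
  rw [sum_comm]
  apply sum_congr rfl
  intro σ _
  rw [prod_univ_sum, mul_sum]
  simp only [Fintype.piFinset_univ]
  apply sum_congr rfl
  intro s _
  rw [prod_mul_distrib]
  ring

/-- Squared norm of a sine vector. -/
noncomputable def cc (N : ℕ) (s : ℤ) : ℝ := ∑ x ∈ range N, U N s x * U N s x

lemma sum_fin (N : ℕ) (s s' : ℤ) (hs : 0 ≤ s) (hs' : 0 ≤ s') (h : s < N) (h' : s' < N) :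
    ∑ x : Fin N, U N s (x : ℕ) * U N s' (x : ℕ) = if s = s' then cc N s else 0 := by
  obtain ⟨p, rfl⟩ := Int.eq_ofNat_of_zero_le hs
  obtain ⟨q, rfl⟩ := Int.eq_ofNat_of_zero_le hs'
  rw [Fin.sum_univ_eq_sum_range (fun x : ℕ => U N p (x : ℕ) * U N q (x : ℕ)) N]
  by_cases hpq : p = q
  · subst hpq
    rw [if_pos rfl]
    rfl
  · rw [if_neg (by exact_mod_cast hpq)]
    exact orth N (by exact_mod_cast h) (by exact_mod_cast h') hpq

lemma cc_pos (N : ℕ) (s : ℤ) (hs : 0 ≤ s) (h : s < N) : 0 < cc N s := by
  obtain ⟨p, rfl⟩ := Int.eq_ofNat_of_zero_le hs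
  exact norm_pos N (by exact_mod_cast h)

lemma A_symm (a b : L m n) : A m n a b = A m n b a := by
  classical
  unfold A
  rw [SimpleGraph.adjMatrix_apply, SimpleGraph.adjMatrix_apply, SimpleGraph.adj_comm]

/-- If two strictly decreasing sequences are different, some value of the first is not a value
of the second. -/
lemma exists_not_mem (a b : L m n) (h : a ≠ b) : ∃ i, ∀ j, sh a i ≠ sh b j := by
  by_contra hcon
  push Not at hcon
  choose f hf using hcon
  apply h
  apply sh_injective
  have hmono : StrictMono f := by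
    intro x y hxy
    have h1 := sh_strictAnti a hxy
    rw [hf x, hf y] at h1
    exact (sh_strictAnti b).lt_iff_gt.mp h1
  have hsurj : Function.Surjective f := Finite.surjective_of_injective hmono.injective
  have hid : f = id := by
    apply (StrictMono.range_inj hmono strictMono_id).mp
    rw [hsurj.range_eq, Set.range_id]
  funext i
  rw [hf i, hid]
  rfl

lemma det_gram (a b : L m n) :
    (Matrix.of fun i j => ∑ x : Fin (m + n), U (m + n) (sh a i) (x : ℕ) *
      U (m + n) (sh b j) (x : ℕ)).det = if a = b then ∏ i, cc (m + n) (sh a i) else 0 := by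
  have h1 : (Matrix.of fun i j => ∑ x : Fin (m + n), U (m + n) (sh a i) (x : ℕ) *
      U (m + n) (sh b j) (x : ℕ)) =
      Matrix.of fun i j => if sh a i = sh b j then cc (m + n) (sh a i) else 0 := by
    ext i j
    simp only [Matrix.of_apply]
    exact sum_fin _ _ _ (sh_nonneg a i) (sh_nonneg b j) (sh_lt a i) (sh_lt b j)
  rw [h1]
  by_cases hab : a = b
  · subst hab
    rw [if_pos rfl]
    have h2 : (Matrix.of fun i j => if sh a i = sh a j then cc (m + n) (sh a i) else 0)
        = Matrix.diagonal fun i => cc (m + n) (sh a i) := by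
      ext i j
      rw [Matrix.diagonal_apply]
      simp only [Matrix.of_apply, (sh_strictAnti a).injective.eq_iff]
    rw [h2, Matrix.det_diagonal]
  · rw [if_neg hab]
    obtain ⟨i, hi⟩ := exists_not_mem a b hab
    apply Matrix.det_eq_zero_of_row_eq_zero i
    intro j
    simp only [Matrix.of_apply, if_neg (hi j)]

/-- If no sum of `m` distinct path eigenvalues vanishes, the matrix is nonsingular. -/
theorem det_ne_zero (H : ∀ s : Fin m → Fin (m + n), Function.Injective s →
    ∑ i, lam (m + n) (s i : ℕ) ≠ 0) : (A m n).det ≠ 0 := by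
  intro hdet
  obtain ⟨g, hg, hAg⟩ := Matrix.exists_mulVec_eq_zero_iff.mpr hdet
  have key : ∀ s : Fin m → Fin (m + n),
      ∑ l : L m n, g l * D (m + n) (fun i => ((s i : ℕ) : ℤ)) (sh l) = 0 := by
    intro s
    by_cases hs : Function.Injective s
    · have h1 : (∑ i, lam (m + n) (s i : ℕ)) *
          ∑ l : L m n, g l * D (m + n) (fun i => ((s i : ℕ) : ℤ)) (sh l) = 0 := by
        rw [mul_sum]
        calc ∑ l : L m n, (∑ i, lam (m + n) (s i : ℕ)) *
              (g l * D (m + n) (fun i => ((s i : ℕ) : ℤ)) (sh l))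
            = ∑ l : L m n, g l * ∑ b, A m n l b * D (m + n) (fun i => ((s i : ℕ) : ℤ)) (sh b) := by
              apply sum_congr rfl
              intro l _
              rw [A_eigen]
              ring
          _ = ∑ b : L m n, (∑ l, A m n b l * g l) *
                D (m + n) (fun i => ((s i : ℕ) : ℤ)) (sh b) := by
              simp only [mul_sum, sum_mul]
              rw [sum_comm]
              apply sum_congr rfl
              intro b _
              apply sum_congr rfl
              intro l _
              rw [A_symm l b]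
              ring
          _ = 0 := by
              apply sum_eq_zero
              intro b _
              have : ∑ l, A m n b l * g l = 0 := congrFun hAg b
              rw [this, zero_mul]
      exact (mul_eq_zero.mp h1).resolve_left (H s hs)
    · apply sum_eq_zero
      intro l _
      have : D (m + n) (fun i => ((s i : ℕ) : ℤ)) (sh l) = 0 := by
        rw [D_symm]
        apply D_eq_zero_of_not_injective
        intro hinj
        apply hs
        intro x y hxy
        exact hinj (by simp only [hxy])
      rw [this, mul_zero]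
  apply hg
  funext l0
  have h2 : ∑ s : Fin m → Fin (m + n), (∏ i, U (m + n) (sh l0 i) ((s i : ℕ) : ℤ)) *
      ∑ l : L m n, g l * D (m + n) (fun i => ((s i : ℕ) : ℤ)) (sh l) = 0 := by
    apply sum_eq_zero
    intro s _
    rw [key s, mul_zero]
  have h3 : ∑ s : Fin m → Fin (m + n), (∏ i, U (m + n) (sh l0 i) ((s i : ℕ) : ℤ)) *
      ∑ l : L m n, g l * D (m + n) (fun i => ((s i : ℕ) : ℤ)) (sh l)
      = ∑ l : L m n, g l * (if l0 = l then ∏ i, cc (m + n) (sh l0 i) else 0) := by
    simp only [mul_sum]
    rw [sum_comm]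
    apply sum_congr rfl
    intro l _
    rw [← det_gram l0 l, ← det_sum (fun i (x : Fin (m + n)) => U (m + n) (sh l0 i) ((x : ℕ) : ℤ))
      (fun (x : Fin (m + n)) j => U (m + n) (sh l j) ((x : ℕ) : ℤ)), mul_sum]
    apply sum_congr rfl
    intro s _
    have : D (m + n) (fun i => ((s i : ℕ) : ℤ)) (sh l) =
        (Matrix.of fun i j => U (m + n) (sh l j) ((s i : ℕ) : ℤ)).det := by
      unfold D
      congr 1
      ext i j
      simp only [Matrix.of_apply]
      exact U_symm _ _ _
    rw [this]
    ring
  rw [h2] at h3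
  simp only [mul_ite, mul_zero, sum_ite_eq, mem_univ, if_true] at h3
  have h4 : ∏ i, cc (m + n) (sh l0 i) ≠ 0 :=
    prod_ne_zero_iff.mpr fun i _ => (cc_pos _ _ (sh_nonneg l0 i) (sh_lt l0 i)).ne'
  exact (mul_eq_zero.mp h3.symm).resolve_right h4

/-- If some sum of `m` distinct path eigenvalues vanishes, the matrix is singular. -/
theorem det_eq_zero (s : Fin m → Fin (m + n)) (hs : Function.Injective s)
    (h0 : ∑ i, lam (m + n) (s i : ℕ) = 0) : (A m n).det = 0 := by
  by_contra hdet
  set s' : Fin m → ℤ := fun i => ((s i : ℕ) : ℤ) with hs'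
  have hs'inj : Function.Injective s' := by
    intro x y hxy
    apply hs
    apply Fin.ext
    have h1 : ((s x : ℕ) : ℤ) = ((s y : ℕ) : ℤ) := hxy
    exact_mod_cast h1
  have hzero : ∀ l : L m n, D (m + n) s' (sh l) = 0 := by
    have h1 : (A m n).mulVec (fun l => D (m + n) s' (sh l)) = 0 := by
      funext a
      have := A_eigen s' a
      change ∑ b, A m n a b * D (m + n) s' (sh b) = 0
      rw [this]
      have : ∑ i, lam (m + n) (s' i) = 0 := h0
      rw [this, zero_mul]
    have h2 : (fun l : L m n => D (m + n) s' (sh l)) = 0 := by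
      by_contra hne
      exact hdet (Matrix.exists_mulVec_eq_zero_iff.mp ⟨_, hne, h1⟩)
    intro l
    exact congrFun h2 l
  have hall : ∀ t : Fin m → Fin (m + n), D (m + n) (fun i => ((t i : ℕ) : ℤ)) s' = 0 := by
    intro t
    rw [D_symm]
    by_cases ht : Function.Injective t
    · set π := Tuple.sort (fun i => OrderDual.toDual (t i)) with hπ
      have hmono := Tuple.monotone_sort (fun i => OrderDual.toDual (t i))
      have hanti : StrictAnti ((fun i => ((t i : ℕ) : ℤ)) ∘ π) := by
        apply Antitone.strictAnti_of_injective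
        · intro x y hxy
          have := hmono hxy
          simp only [Function.comp_apply] at this ⊢
          have h1 : t (π y) ≤ t (π x) := this
          have h2 : (t (π y) : ℕ) ≤ (t (π x) : ℕ) := h1
          exact_mod_cast h2
        · intro x y hxy
          simp only [Function.comp_apply] at hxy
          have h1 : (t (π x) : ℕ) = t (π y) := by exact_mod_cast hxy
          exact π.injective (ht (Fin.ext h1))
      obtain ⟨l, hl⟩ := exists_sh (m := m) (n := n) hanti (by
        intro i; simp only [Function.comp_apply]; omega) (by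
        intro i
        simp only [Function.comp_apply]
        have := (t (π i)).2
        omega)
      have h1 := hzero l
      rw [hl, D_perm] at h1
      rcases Int.units_eq_one_or (Equiv.Perm.sign π) with hsgn | hsgn
      · rw [hsgn] at h1
        simpa using h1
      · rw [hsgn] at h1
        simpa using h1
    · apply D_eq_zero_of_not_injective
      intro hinj
      apply ht
      intro x y hxy
      exact hinj (by simp only [hxy])
  have h3 : ∑ t : Fin m → Fin (m + n), (∏ i, U (m + n) (s' i) ((t i : ℕ) : ℤ)) *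
      D (m + n) (fun i => ((t i : ℕ) : ℤ)) s' = 0 := by
    apply sum_eq_zero
    intro t _
    rw [hall t, mul_zero]
  have h4 := det_sum (fun i (x : Fin (m + n)) => U (m + n) (s' i) ((x : ℕ) : ℤ))
      (fun (x : Fin (m + n)) j => U (m + n) (s' j) ((x : ℕ) : ℤ))
  have h5 : ∀ t : Fin m → Fin (m + n), D (m + n) (fun i => ((t i : ℕ) : ℤ)) s' =
      (Matrix.of fun i j => U (m + n) (s' j) ((t i : ℕ) : ℤ)).det := by
    intro t
    unfold D
    congr 1
    ext i j
    simp only [Matrix.of_apply]
    exact U_symm _ _ _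
  simp only [h5] at h3
  rw [h3] at h4
  have hb0 : ∀ i, 0 ≤ s' i := fun i => by simp only [hs']; omega
  have hb1 : ∀ i, s' i < (m + n : ℕ) := fun i => by
    have := (s i).2
    simp only [hs']; omega
  have h6 : (Matrix.of fun i j => ∑ x : Fin (m + n), U (m + n) (s' i) ((x : ℕ) : ℤ) *
      U (m + n) (s' j) ((x : ℕ) : ℤ)) = Matrix.diagonal fun i => cc (m + n) (s' i) := by
    ext i j
    rw [Matrix.diagonal_apply]
    simp only [Matrix.of_apply]
    rw [sum_fin _ _ _ (hb0 i) (hb0 j) (hb1 i) (hb1 j)]
    simp only [hs'inj.eq_iff]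
  rw [h6, Matrix.det_diagonal] at h4
  have h7 : ∏ i, cc (m + n) (s' i) ≠ 0 :=
    prod_ne_zero_iff.mpr fun i _ => (cc_pos _ _ (hb0 i) (hb1 i)).ne'
  exact h7 h4.symm

end Pool.Agent.H284_lmn
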